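import Mathlib

namespace Pool.Agent.H.MP_fc9cb6_an
open Filter Topology Finset InnerProductSpace

variable {H : Type} [NormedAddCommGroup H] [InnerProductSpace ℂ H]

def Rk (F : H →L[ℂ] H) (n : ℕ) : Prop := (F : H →ₗ[ℂ] H).rank ≤ n

noncomputable def sv (T : H →L[ℂ] H) (n : ℕ) : ℝ := sInf {r | ∃ F, Rk F n ∧ r = ‖T - F‖}

def InS (p : ℝ) (T : H →L[ℂ] H) : Prop := Summable fun n => sv T n ^ p

noncomputable def nS (p : ℝ) (T : H →L[ℂ] H) : ℝ := (∑' n, sv T n ^ p) ^ (1 / p)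

variable {F G T : H →L[ℂ] H} {m n : ℕ} {p : ℝ}

lemma rk_zero (n : ℕ) : Rk (0 : H →L[ℂ] H) n := by simp [Rk]
lemma Rk.mono (h : Rk F m) (hm : m ≤ n) : Rk F n := h.trans (by exact_mod_cast hm)
lemma Rk.add (h : Rk F m) (h' : Rk G n) : Rk (F + G) (m + n) :=
  (LinearMap.rank_add_le _ _).trans (by push_cast; exact add_le_add h h')
lemma Rk.mul_left (h : Rk F m) (a : H →L[ℂ] H) : Rk (a * F) m :=
  (LinearMap.rank_comp_le_right (F : H →ₗ[ℂ] H) (a : H →ₗ[ℂ] H)).trans h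
lemma Rk.mul_right (h : Rk F m) (a : H →L[ℂ] H) : Rk (F * a) m :=
  (LinearMap.rank_comp_le_left (a : H →ₗ[ℂ] H) (F : H →ₗ[ℂ] H)).trans h
lemma Rk.sub (h : Rk F m) (h' : Rk G n) : Rk (F - G) (m + n) := by
  simpa [sub_eq_add_neg] using h.add (h'.mul_left (-1))
lemma rk_one (u v : H) : Rk (rankOne ℂ u v) 1 := by
  by_cases hu : u = 0
  · simpa [hu] using rk_zero 1
  by_cases hv : v = 0
  · simpa [hv] using rk_zero 1
  exact (rank_rankOne hu hv).le.trans (by simp)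
lemma rk_sum {ι : Type} (s : Finset ι) {f : ι → H →L[ℂ] H} {r : ι → ℕ} (h : ∀ i, Rk (f i) (r i)) :
    Rk (∑ i ∈ s, f i) (∑ i ∈ s, r i) := by
  classical
  induction s using Finset.induction_on with
  | empty => simpa using rk_zero 0
  | insert i s hi ih => rw [sum_insert hi, sum_insert hi]; exact (h i).add ih

lemma sv_ne (T : H →L[ℂ] H) (n : ℕ) : {r | ∃ F, Rk F n ∧ r = ‖T - F‖}.Nonempty :=
  ⟨_, 0, rk_zero n, rfl⟩
lemma sv_nonneg (T : H →L[ℂ] H) (n : ℕ) : 0 ≤ sv T n :=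
  le_csInf (sv_ne T n) (by rintro _ ⟨F, -, rfl⟩; positivity)
lemma sv_le (h : Rk F n) (T : H →L[ℂ] H) : sv T n ≤ ‖T - F‖ :=
  csInf_le ⟨0, by rintro _ ⟨F, -, rfl⟩; positivity⟩ ⟨F, h, rfl⟩
lemma sv_ex {r : ℝ} (h : sv T n < r) : ∃ F, Rk F n ∧ ‖T - F‖ < r := by
  obtain ⟨_, ⟨F, h1, rfl⟩, h2⟩ := exists_lt_of_csInf_lt (sv_ne T n) h
  exact ⟨F, h1, h2⟩
lemma sv_ind {x K c : ℝ} (hK : 0 ≤ K) (h : ∀ F, Rk F n → x ≤ K * ‖T - F‖ + c) :
    x ≤ K * sv T n + c := by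
  refine le_of_forall_pos_le_add fun ε hε => ?_
  obtain ⟨F, h1, h2⟩ := sv_ex (lt_add_of_pos_right (sv T n) (show 0 < ε / (K + 1) by positivity))
  have : K * (ε / (K + 1)) ≤ ε := by
    rw [← mul_div_assoc, div_le_iff₀ (by positivity)]; nlinarith
  nlinarith [h F h1, mul_le_mul_of_nonneg_left h2.le hK]
lemma sv_anti (T : H →L[ℂ] H) : Antitone (sv T) := fun _ _ h => by
  simpa using sv_ind (c := 0) zero_le_one fun F hF => by simpa using sv_le (hF.mono h) T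
lemma sv_norm (T : H →L[ℂ] H) (n : ℕ) : sv T n ≤ ‖T‖ := by simpa using sv_le (rk_zero n) T
lemma sv_zero (T : H →L[ℂ] H) : sv T 0 = ‖T‖ := by
  refine (sv_norm T 0).antisymm (le_csInf (sv_ne T 0) ?_)
  rintro _ ⟨F, h, rfl⟩
  have : F = 0 := by
    have h1 : (F : H →ₗ[ℂ] H).range = ⊥ := Submodule.rank_eq_zero.1 (by simpa [Rk] using h)
    exact ContinuousLinearMap.coe_injective (LinearMap.range_eq_bot.1 h1)
  simp [this]
lemma sv_mul_left (a T : H →L[ℂ] H) (n : ℕ) : sv (a * T) n ≤ ‖a‖ * sv T n := by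
  simpa using sv_ind (c := 0) (norm_nonneg a) fun F hF => by
    simpa [← mul_sub] using (sv_le (hF.mul_left a) (a * T)).trans (by
      rw [← mul_sub]; exact norm_mul_le _ _)
lemma sv_mul_right (T a : H →L[ℂ] H) (n : ℕ) : sv (T * a) n ≤ ‖a‖ * sv T n := by
  simpa using sv_ind (c := 0) (norm_nonneg a) fun F hF => by
    simpa using (sv_le (hF.mul_right a) (T * a)).trans (by
      rw [← sub_mul, mul_comm]; exact norm_mul_le _ _)
lemma sv_add (a c : H →L[ℂ] H) (m n : ℕ) : sv (a + c) (m + n) ≤ sv a m + sv c n := by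
  rw [← one_mul (sv a m)]
  refine sv_ind zero_le_one fun F hF => ?_
  rw [add_comm (1 * _), ← one_mul (sv c n)]
  refine sv_ind zero_le_one fun G hG => (sv_le (hF.add hG) _).trans ?_
  rw [show a + c - (F + G) = c - G + (a - F) by abel, one_mul, one_mul]
  exact norm_add_le _ _
lemma sv_mul (a c : H →L[ℂ] H) (m n : ℕ) : sv (a * c) (m + n) ≤ sv a m * sv c n := by
  rw [mul_comm, ← add_zero (sv c n * sv a m)]
  refine sv_ind (sv_nonneg c n) fun F hF => ?_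
  rw [mul_comm]
  refine sv_ind (norm_nonneg _) fun G hG =>
    (sv_le ((hF.mul_right c).add (hG.mul_left (a - F))) _).trans ?_
  rw [show a * c - (F * c + (a - F) * G) = (a - F) * (c - G) by noncomm_ring, add_zero]
  exact norm_mul_le _ _

lemma nS_nonneg (p : ℝ) (T : H →L[ℂ] H) : 0 ≤ nS p T :=
  Real.rpow_nonneg (tsum_nonneg fun n => Real.rpow_nonneg (sv_nonneg T n) p) _

lemma dom (hp : 0 < p) (h : InS p T) {K : ℝ} (hK : 0 ≤ K) (hG : ∀ n, sv G n ≤ K * sv T n) :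
    InS p G ∧ nS p G ≤ K * nS p T := by
  have e : ∀ n, sv G n ^ p ≤ K ^ p * sv T n ^ p := fun n => by
    rw [← Real.mul_rpow hK (sv_nonneg _ _)]
    exact Real.rpow_le_rpow (sv_nonneg _ _) (hG n) hp.le
  have h1 : InS p G := (h.mul_left (K ^ p)).of_nonneg_of_le
    (fun n => Real.rpow_nonneg (sv_nonneg _ _) _) e
  refine ⟨h1, ?_⟩
  have h2 := h1.tsum_le_tsum e (h.mul_left _)
  rw [tsum_mul_left] at h2
  refine (Real.rpow_le_rpow (tsum_nonneg fun n => Real.rpow_nonneg (sv_nonneg _ n) p) h2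
    (by positivity)).trans (le_of_eq ?_)
  rw [Real.mul_rpow (by positivity) (tsum_nonneg fun n => Real.rpow_nonneg (sv_nonneg _ n) p),
    one_div, Real.rpow_rpow_inv hK hp.ne', nS, one_div]

lemma InS.left (hp : 0 < p) (h : InS p T) (a : H →L[ℂ] H) :
    InS p (a * T) ∧ nS p (a * T) ≤ ‖a‖ * nS p T := dom hp h (norm_nonneg a) (sv_mul_left a T)
lemma InS.right (hp : 0 < p) (h : InS p T) (a : H →L[ℂ] H) :
    InS p (T * a) ∧ nS p (T * a) ≤ ‖a‖ * nS p T := dom hp h (norm_nonneg a) (sv_mul_right T a)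

lemma sv_rpow_anti (hp : 0 < p) (T : H →L[ℂ] H) ⦃m n : ℕ⦄ (_ : 0 < m) (h : m ≤ n) :
    sv T n ^ p ≤ sv T m ^ p := Real.rpow_le_rpow (sv_nonneg _ _) (sv_anti T h) hp.le

lemma inS_iff (hp : 0 < p) : InS p T ↔ Summable fun k : ℕ => (2 : ℝ) ^ k * sv T (2 ^ k) ^ p :=
  (summable_condensed_iff_of_nonneg (fun n => Real.rpow_nonneg (sv_nonneg T n) p)
    (sv_rpow_anti hp T)).symm

lemma InS.add (hp : 0 < p) (h : InS p T) (h' : InS p G) : InS p (T + G) := by
  rw [inS_iff hp] at *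
  rw [← summable_nat_add_iff 1]
  refine (((h.add h').mul_left (2 * 2 ^ p))).of_nonneg_of_le
    (fun k => mul_nonneg (by positivity) (Real.rpow_nonneg (sv_nonneg _ _) _)) fun k => ?_
  have h1 := sv_add T G (2 ^ k) (2 ^ k)
  rw [← two_mul, ← pow_succ'] at h1
  have a := sv_nonneg T (2 ^ k)
  have b := sv_nonneg G (2 ^ k)
  have h2 : sv (T + G) (2 ^ (k + 1)) ^ p ≤ 2 ^ p * (sv T (2 ^ k) ^ p + sv G (2 ^ k) ^ p) := by
    have m1 := le_max_left (sv T (2 ^ k)) (sv G (2 ^ k))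
    have m2 := le_max_right (sv T (2 ^ k)) (sv G (2 ^ k))
    refine (Real.rpow_le_rpow (sv_nonneg _ _) (h1.trans (show _ ≤ 2 * max (sv T (2 ^ k))
      (sv G (2 ^ k)) by linarith)) hp.le).trans ?_
    rw [Real.mul_rpow zero_le_two (le_max_of_le_left a)]
    gcongr
    rcases max_choice (sv T (2 ^ k)) (sv G (2 ^ k)) with h | h <;> rw [h]
    · exact le_add_of_nonneg_right (by positivity)
    · exact le_add_of_nonneg_left (by positivity)
  calc _ ≤ 2 ^ (k + 1) * (2 ^ p * (sv T (2 ^ k) ^ p + sv G (2 ^ k) ^ p)) := by gcongr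
    _ = _ := by ring

lemma Rk.inS (hp : 0 < p) (h : Rk F m) : InS p F :=
  summable_of_ne_finset_zero (s := range m) fun n hn => by
    have : sv F n = 0 := (sv_nonneg _ _).antisymm' (by
      simpa using sv_le (h.mono (by simpa using hn)) F)
    rw [this, Real.zero_rpow hp.ne']

lemma InS.sv_le (hp : 0 < p) (h : InS p T) (n : ℕ) :
    sv T n ≤ nS p T * ((n + 1 : ℕ) : ℝ) ^ (-(1 / p)) := by
  have h1 : ((n + 1 : ℕ) : ℝ) * sv T n ^ p ≤ ∑' j, sv T j ^ p := by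
    refine le_trans ?_ (h.sum_le_tsum (range (n + 1)) fun j _ => Real.rpow_nonneg (sv_nonneg _ _) _)
    have := card_nsmul_le_sum (range (n + 1)) (fun j => sv T j ^ p) (sv T n ^ p) fun j hj =>
      Real.rpow_le_rpow (sv_nonneg _ _) (sv_anti T (by simpa [Nat.lt_succ_iff] using hj)) hp.le
    simpa using this
  have h2 := Real.rpow_le_rpow (mul_nonneg (by positivity) (Real.rpow_nonneg (sv_nonneg _ _) _)) h1
    (show 0 ≤ 1 / p by positivity)
  rw [Real.mul_rpow (by positivity) (Real.rpow_nonneg (sv_nonneg _ _) _), one_div,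
    Real.rpow_rpow_inv (sv_nonneg _ _) hp.ne'] at h2
  rw [Real.rpow_neg (by positivity), ← div_eq_mul_inv, le_div_iff₀ (by positivity), mul_comm, nS,
    one_div]
  exact h2

lemma InS.norm_le (hp : 0 < p) (h : InS p T) : ‖T‖ ≤ nS p T := by
  simpa [sv_zero] using h.sv_le hp 0

lemma cs {ι : Type} {v w : ι → H} (hv : Orthonormal ℂ v) (hw : Orthonormal ℂ w) (s : Finset ι)
    (x y : H) : ∑ j ∈ s, ‖inner ℂ (w j) y‖ * ‖inner ℂ (v j) x‖ ≤ ‖y‖ * ‖x‖ := by
  have h := sum_mul_sq_le_sq_mul_sq s (fun j => ‖inner ℂ (w j) y‖) fun j => ‖inner ℂ (v j) x‖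
  refine (abs_le_of_sq_le_sq' (h.trans ?_) (by positivity)).2
  rw [mul_pow]
  exact mul_le_mul (hw.sum_inner_products_le y) (hv.sum_inner_products_le x) (by positivity)
    (by positivity)

lemma Rk.dec [CompleteSpace H] (h : Rk G n) : ∃ d ≤ n, ∃ f g : Fin d → H,
    (∀ i, ‖f i‖ * ‖g i‖ ≤ ‖G‖) ∧ G = ∑ i, rankOne ℂ (f i) (g i) := by
  set R := (G : H →ₗ[ℂ] H).range
  have : FiniteDimensional ℂ R := Module.rank_lt_aleph0_iff.1 (h.trans_lt Cardinal.natCast_lt_aleph0)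
  let b := stdOrthonormalBasis ℂ R
  refine ⟨_, Module.finrank_le_of_rank_le h, fun i => b i, fun i => G.adjoint (b i), fun i => ?_, ?_⟩
  · have : ‖(b i : H)‖ = 1 := b.orthonormal.1 i
    have h2 := G.adjoint.le_opNorm (b i)
    rw [this, LinearIsometryEquiv.norm_map] at *
    linarith
  · ext x
    have := congrArg Subtype.val (b.sum_repr' ⟨G x, x, rfl⟩)
    simp only [Submodule.coe_sum, Submodule.coe_smul, Submodule.coe_inner] at this
    simpa [ContinuousLinearMap.adjoint_inner_left] using this.symm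

end Pool.Agent.H.MP_fc9cb6_an
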