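import Pool.Agent.H.MP_fc9cb6_an.A

namespace Pool.Agent.H.MP_fc9cb6_an
open Filter Topology Finset InnerProductSpace

variable {H : Type} [NormedAddCommGroup H] [InnerProductSpace ℂ H]
variable {X Y : Type} [NormedAddCommGroup X] [NormedSpace ℂ X] [NormedAddCommGroup Y]
  [NormedSpace ℂ Y]

def BLin (p : ℝ) (f : (H →L[ℂ] H) → Y) : Prop :=
  (∀ a b, InS p a → InS p b → ∀ c : ℂ, f (c • a + b) = c • f a + f b) ∧
    ∃ C, ∀ a, InS p a → ‖f a‖ ≤ C * nS p a

def IsBimod (p : ℝ) (l r : (H →L[ℂ] H) → X →L[ℂ] X) : Prop :=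
  BLin p l ∧ BLin p r ∧ ∀ a b, InS p a → InS p b →
    l (a.comp b) = (l a).comp (l b) ∧ r (a.comp b) = (r b).comp (r a) ∧
      (l a).comp (r b) = (r b).comp (l a)

def IsDer (p : ℝ) (l r : (H →L[ℂ] H) → X →L[ℂ] X) (D : (H →L[ℂ] H) → X →L[ℂ] ℂ) : Prop :=
  BLin p D ∧ ∀ a b, InS p a → InS p b → D (a.comp b) = (D b).comp (r a) + (D a).comp (l b)

def SemiInner (p : ℝ) (l r : (H →L[ℂ] H) → X →L[ℂ] X) (D : (H →L[ℂ] H) → X →L[ℂ] ℂ) : Prop :=
  ∃ (ι : Type) (_ : Preorder ι) (_ : IsDirected ι (· ≤ ·)) (_ : Nonempty ι)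
    (ξ η : ι → X →L[ℂ] ℂ), ∀ a, InS p a →
      Tendsto (fun i => (ξ i).comp (r a) - (η i).comp (l a)) atTop (𝓝 (D a))

def ASA (H : Type) [NormedAddCommGroup H] [InnerProductSpace ℂ H] (p : ℝ) : Prop :=
  ∀ (X : Type) [NormedAddCommGroup X] [NormedSpace ℂ X] [CompleteSpace X]
    (l r : (H →L[ℂ] H) → X →L[ℂ] X) (D : (H →L[ℂ] H) → X →L[ℂ] ℂ),
    IsBimod p l r → IsDer p l r D → SemiInner p l r D

variable {p : ℝ} {f : (H →L[ℂ] H) → Y}

lemma BLin.add (h : BLin p f) {a b} (ha : InS p a) (hb : InS p b) : f (a + b) = f a + f b := by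
  simpa using h.1 a b ha hb 1
lemma BLin.zero (hp : 0 < p) (h : BLin p f) : f 0 = 0 := by
  simpa using h.add ((rk_zero 0).inS hp) ((rk_zero 0).inS hp)
lemma BLin.smul (hp : 0 < p) (h : BLin p f) {a} (ha : InS p a) (c : ℂ) : f (c • a) = c • f a := by
  simpa [h.zero hp] using h.1 a 0 ha ((rk_zero 0).inS hp) c
lemma BLin.sum (hp : 0 < p) (h : BLin p f) {a : ℕ → H →L[ℂ] H} (ha : ∀ i, Rk (a i) 1) (n : ℕ) :
    f (∑ i ∈ range n, a i) = ∑ i ∈ range n, f (a i) := by
  induction n with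
  | zero => simpa using h.zero hp
  | succ n ih => rw [sum_range_succ, sum_range_succ, h.add ((rk_sum _ ha).inS hp) ((ha n).inS hp), ih]
lemma BLin.bd (h : BLin p f) : ∃ C, 0 ≤ C ∧ ∀ a, InS p a → ‖f a‖ ≤ C * nS p a := by
  obtain ⟨C, hC⟩ := h.2
  exact ⟨|C|, abs_nonneg C, fun a ha => (hC a ha).trans
    (mul_le_mul_of_nonneg_right (le_abs_self C) (nS_nonneg p a))⟩

lemma iso_le {ι : Type} {v w : ι → H} (hv : Orthonormal ℂ v) (hw : Orthonormal ℂ w) (s : Finset ι) :
    ‖∑ j ∈ s, rankOne ℂ (w j) (v j)‖ ≤ 1 := by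
  refine ContinuousLinearMap.opNorm_le_bound _ zero_le_one fun x => ?_
  set y := (∑ j ∈ s, rankOne ℂ (w j) (v j)) x with hy
  have h1 : ‖y‖ * ‖y‖ ≤ ‖y‖ * ‖x‖ := by
    refine le_trans ?_ (cs hv hw s x y)
    rw [← inner_self_eq_norm_mul_norm (𝕜 := ℂ)]
    refine (RCLike.re_le_norm _).trans ?_
    conv_lhs => arg 1; arg 3; rw [hy]
    simp only [_root_.sum_apply, rankOne_apply, inner_sum, inner_smul_right]
    refine (norm_sum_le _ _).trans (le_of_eq (sum_congr rfl fun j _ => ?_))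
    rw [norm_mul, mul_comm, norm_inner_symm]
  rcases (norm_nonneg y).eq_or_lt with h | h
  · rw [← h]; positivity
  · simpa using le_of_mul_le_mul_left h1 h

lemma tele [CompleteSpace H] [CompleteSpace Y] (Λ : ℕ → (H →L[ℂ] H) →+ Y) (hc : ∀ n, Continuous (Λ n)) {K : ℝ}
    (hK : 0 ≤ K) (h1 : ∀ n u v, ‖Λ n (rankOne ℂ u v)‖ ≤ K * (‖u‖ * ‖v‖))
    (h2 : ∀ u v, Tendsto (fun n => Λ n (rankOne ℂ u v)) atTop (𝓝 0)) {a : H →L[ℂ] H}
    (ha : InS 1 a) : Tendsto (fun n => Λ n a) atTop (𝓝 0) := by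
  have fr : ∀ {G r}, Rk G r → (∀ n, ‖Λ n G‖ ≤ K * (r * ‖G‖)) ∧
      Tendsto (fun n => Λ n G) atTop (𝓝 0) := by
    intro G r h
    obtain ⟨d, hd, f, g, h3, h4⟩ := h.dec
    constructor
    · intro n
      conv_lhs => rw [h4, _root_.map_sum]
      refine (norm_sum_le _ _).trans ((sum_le_sum fun i _ => (h1 n _ _).trans
        (mul_le_mul_of_nonneg_left (h3 i) hK)).trans ?_)
      simp only [sum_const, card_univ, Fintype.card_fin, nsmul_eq_mul, mul_left_comm K]
      gcongr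
    · simp only [h4, _root_.map_sum]
      simpa using tendsto_finset_sum univ fun i _ => h2 (f i) (g i)
  set t : ℕ → ℝ := fun k => sv a (2 ^ k) + (1 / 4) ^ k
  have t0 : ∀ k, 0 ≤ t k := fun k => add_nonneg (sv_nonneg _ _) (by positivity)
  have hs : Summable fun k => 2 ^ k * t k := by
    have := (inS_iff one_pos).1 ha
    simp only [Real.rpow_one] at this
    convert this.add (summable_geometric_two) using 2 with k
    simp only [t, mul_add, ← mul_pow]; norm_num
  choose F hF hF' using fun k => sv_ex (show sv a (2 ^ k) < t k from lt_add_of_pos_right _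
    (by positivity))
  have hs2 : Summable fun k => 3 * (2 ^ k * t k) + 2 * (2 ^ (k + 1) * t (k + 1)) :=
    (hs.mul_left 3).add (((summable_nat_add_iff 1).2 hs).mul_left 2)
  have b1 : ∀ k, ((2 ^ (k + 1) + 2 ^ k : ℕ) : ℝ) * ‖F (k + 1) - F k‖ ≤
      3 * (2 ^ k * t k) + 2 * (2 ^ (k + 1) * t (k + 1)) := fun k => by
    have h : ‖F (k + 1) - F k‖ ≤ t k + t (k + 1) := by
      rw [show F (k + 1) - F k = a - F k - (a - F (k + 1)) by abel]
      exact (norm_sub_le _ _).trans (add_le_add (hF' _).le (hF' _).le)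
    have := mul_nonneg (show (0 : ℝ) ≤ 2 ^ k by positivity) (t0 (k + 1))
    push_cast
    calc _ ≤ (2 ^ (k + 1) + 2 ^ k) * (t k + t (k + 1)) := by gcongr
      _ ≤ _ := by rw [pow_succ]; nlinarith
  have hG : HasSum (fun k => F (k + 1) - F k) (a - F 0) := by
    rw [(Summable.of_norm_bounded hs2 fun k => le_trans (le_mul_of_one_le_left (norm_nonneg _)
      (by exact_mod_cast Nat.succ_le_of_lt (by positivity))) (b1 k)).hasSum_iff_tendsto_nat]
    simp only [sum_range_sub]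
    refine Tendsto.sub_const (tendsto_iff_norm_sub_tendsto_zero.2 (squeeze_zero
      (fun _ => norm_nonneg _) (fun k => ?_) hs.tendsto_atTop_zero)) _
    rw [norm_sub_rev]
    exact (hF' k).le.trans (le_mul_of_one_le_left (t0 k) (one_le_pow₀ one_le_two))
  have := tendsto_tsum_of_dominated_convergence (hs2.mul_left K)
    (fun k => (fr ((hF (k + 1)).sub (hF k))).2) (Eventually.of_forall fun n k =>
      ((fr ((hF (k + 1)).sub (hF k))).1 n).trans (mul_le_mul_of_nonneg_left (b1 k) hK))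
  have h3 := this.add (fr (hF 0)).2
  simp only [tsum_zero, add_zero] at h3
  refine h3.congr fun n => ?_
  rw [show ∑' k, Λ n (F (k + 1) - F k) = _ from (hG.map (Λ n) (hc n)).tsum_eq, map_sub,
    sub_add_cancel]

theorem yes [CompleteSpace H] (e : HilbertBasis ℕ ℂ H) : ASA H 1 := by
  intro X _ _ _ l r D ⟨hl, hr, hm⟩ ⟨hD, hd⟩
  have S : ∀ u v : H, InS 1 (rankOne ℂ u v) := fun u v => (rk_one u v).inS one_pos
  have e0 : inner ℂ (e 0) (e 0) = (1 : ℂ) := by simp [e.orthonormal.1 0]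
  have n0 : ‖e 0‖ = 1 := e.orthonormal.1 0
  obtain ⟨C1, c1, hC1⟩ := hr.bd
  obtain ⟨C2, c2, hC2⟩ := hD.bd
  set N := nS 1 (rankOne ℂ (e 0) (e 0))
  have N0 : 0 ≤ N := nS_nonneg _ _
  have bB : ∀ u v : H, ‖(D (rankOne ℂ (e 0) v)).comp (r (rankOne ℂ u (e 0)))‖ ≤
      C2 * N * (C1 * N) * ‖u‖ * ‖v‖ := fun u v => by
    have a1 := ((S (e 0) (e 0)).left one_pos (rankOne ℂ u (e 0))).2
    have a2 := ((S (e 0) (e 0)).right one_pos (rankOne ℂ (e 0) v)).2
    rw [ContinuousLinearMap.mul_def, rankOne_comp_rankOne, e0, one_smul, norm_rankOne,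
      n0] at a1 a2
    refine (ContinuousLinearMap.opNorm_comp_le _ _).trans ?_
    calc _ ≤ C2 * (1 * ‖v‖ * N) * (C1 * (‖u‖ * 1 * N)) :=
          mul_le_mul ((hC2 _ (S _ _)).trans (by gcongr)) ((hC1 _ (S _ _)).trans (by gcongr))
            (norm_nonneg _) (by positivity)
      _ = _ := by ring
  set K := C2 * N * (C1 * N)
  have K0 : 0 ≤ K := by positivity
  let B : H →L[ℂ] H →L⋆[ℂ] X →L[ℂ] ℂ := LinearMap.mkContinuous₂
    (LinearMap.mk₂'ₛₗ (RingHom.id ℂ) (starRingEnd ℂ)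
      (fun u v => (D (rankOne ℂ (e 0) v)).comp (r (rankOne ℂ u (e 0))))
      (fun u u' v => by simp [hr.add (S _ _) (S _ _)])
      (fun c u v => by simp [hr.smul one_pos (S _ _)])
      (fun u v v' => by simp [hD.add (S _ _) (S _ _)])
      (fun c u v => by simp [hD.smul one_pos (S _ _)])) K bB
  have hB : ∀ u v, B u v = (D (rankOne ℂ (e 0) v)).comp (r (rankOne ℂ u (e 0))) := fun _ _ => rfl
  let P : ℕ → H →L[ℂ] H := fun n => ∑ i ∈ range n, rankOne ℂ (e i) (e i)
  have P1 : ∀ n, ‖P n‖ ≤ 1 := fun n => iso_le e.orthonormal e.orthonormal _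
  have P2 : ∀ n x, ‖P n x‖ ≤ ‖x‖ := fun n x => by simpa using (P n).le_of_opNorm_le (P1 n) x
  have P3 : ∀ x, Tendsto (fun n => P n x) atTop (𝓝 x) := fun x => by
    simpa [P, e.repr_apply_apply] using (e.hasSum_repr x).tendsto_sum_nat
  have PS : ∀ n, InS 1 (P n) := fun n => (rk_sum _ fun i => rk_one _ _).inS one_pos
  let Λ : ℕ → (H →L[ℂ] H) →+ X →L[ℂ] ℂ := fun n => AddMonoidHom.mk'
    (fun a => ∑ i ∈ range n, (B (a (e i)) (e i) - B (e i) (a.adjoint (e i)))) fun a b => by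
      simp only [map_add, _root_.add_apply, ← sum_add_distrib]
      exact sum_congr rfl fun _ _ => by abel
  have hΛ : ∀ n u v, Λ n (rankOne ℂ u v) = B u (P n v) - B (P n u) v := fun n u v => by
    simp [Λ, P, map_smulₛₗ]
  refine ⟨ℕ, inferInstance, inferInstance, inferInstance, fun n => ∑ i ∈ range n, B (e i) (e i),
    fun n => ∑ i ∈ range n, B (e i) (e i) - D (P n), fun a ha => ?_⟩
  have t1 := tele Λ (fun n => by
      show Continuous fun a : H →L[ℂ] H =>
        ∑ i ∈ range n, (B (a (e i)) (e i) - B (e i) (a.adjoint (e i)))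
      fun_prop) (K := 2 * K) (by positivity) (fun n u v => by
      rw [hΛ]
      refine (norm_sub_le _ _).trans ?_
      have a1 := bB u (P n v)
      have a2 := bB (P n u) v
      have a3 : K * ‖u‖ * ‖P n v‖ ≤ K * ‖u‖ * ‖v‖ := by gcongr; exact P2 _ _
      have a4 : K * ‖P n u‖ * ‖v‖ ≤ K * ‖u‖ * ‖v‖ := by gcongr; exact P2 _ _
      rw [hB, hB]
      linarith) (fun u v => by
      simp only [hΛ]
      have := (((B u).continuous.tendsto v).comp (P3 v)).sub
        (((B.flip v).continuous.tendsto u).comp (P3 u))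
      simpa using this) ha
  have Q1 : ∀ n, ‖1 - P n‖ ≤ 2 := fun n => (norm_sub_le _ _).trans (by
    have : ‖(1 : H →L[ℂ] H)‖ ≤ 1 := ContinuousLinearMap.norm_id_le
    linarith [P1 n])
  have t2 := tele (Y := H →L[ℂ] H) (fun n => AddMonoidHom.mulLeft (1 - P n))
    (fun n => continuous_const_mul _) zero_le_two (fun n u v => (norm_mul_le _ _).trans (by
      rw [norm_rankOne]; gcongr; exact Q1 n)) (fun u v => by
      have := ((rankOne ℂ).flip v).continuous.tendsto (u - u) |>.comp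
        (tendsto_const_nhds.sub (P3 u))
      simpa [ContinuousLinearMap.mul_def, comp_rankOne, Function.comp_def] using this) ha
  have t3 := tendsto_tsum_of_dominated_convergence (f := fun n j => sv ((1 - P n) * a) j ^ (1 : ℝ))
    (g := fun _ => 0) (ha.mul_left 2) (fun j => by
      simp only [Real.rpow_one]
      exact squeeze_zero (fun _ => sv_nonneg _ _) (fun n => sv_norm _ _)
        (tendsto_zero_iff_norm_tendsto_zero.1 t2)) (Eventually.of_forall fun n j => by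
      simp only [Real.rpow_one, Real.norm_of_nonneg (sv_nonneg _ _)]
      exact (sv_mul_left _ _ _).trans (mul_le_mul_of_nonneg_right (Q1 n) (sv_nonneg _ _)))
  have t4 : Tendsto (fun n => D ((1 - P n) * a)) atTop (𝓝 0) :=
    squeeze_zero_norm (fun n => hC2 _ (ha.left one_pos _).1) (by
      simpa [nS] using t3.const_mul C2)
  have := (t1.sub t4).add_const (D a)
  simp only [sub_zero, zero_add] at this
  refine this.congr fun n => ?_
  have e1 : D a = D ((1 - P n) * a) + D ((P n).comp a) := by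
    rw [← ContinuousLinearMap.mul_def, ← hD.add (ha.left one_pos _).1 (ha.left one_pos _).1,
      sub_mul, one_mul, sub_add_cancel]
  have e2 : ∀ i, (B (e i) (e i)).comp (r a) = B (a (e i)) (e i) := fun i => by
    rw [hB, hB, ← comp_rankOne, (hm _ _ ha (S _ _)).2.1]; rfl
  have e3 : ∀ i, (B (e i) (e i)).comp (l a) =
      B (e i) (a.adjoint (e i)) - (D a).comp (r (rankOne ℂ (e i) (e i))) := fun i => by
    have := (hm _ _ (S (e i) (e 0)) (S (e 0) (e i))).2.1
    rw [rankOne_comp_rankOne, e0, one_smul] at this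
    rw [hB, hB, ← rankOne_comp, hd _ _ (S _ _) ha, this, ContinuousLinearMap.comp_assoc,
      ← (hm _ _ ha (S _ _)).2.2]
    ext x; simp
  rw [hd _ _ (PS n) ha, hr.sum one_pos fun i => rk_one _ _] at e1
  simp only [ContinuousLinearMap.sub_comp, ContinuousLinearMap.finsetSum_comp, e2, e3,
    ContinuousLinearMap.comp_finsetSum, Λ, AddMonoidHom.mk'_apply, sum_sub_distrib] at e1 ⊢
  rw [← sub_eq_iff_eq_add] at e1
  rw [← e1]
  abel

end Pool.Agent.H.MP_fc9cb6_an
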