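import Pool.Agent.H.MP_fc9cb6_an.B

namespace Pool.Agent.H.MP_fc9cb6_an
open Filter Topology Finset InnerProductSpace

variable {H : Type} [NormedAddCommGroup H] [InnerProductSpace ℂ H] [CompleteSpace H]
variable {v w : ℕ × ℕ → H} {p : ℝ}

noncomputable def Lv (w v : ℕ × ℕ → H) (n : ℕ) : (H →L[ℂ] H) →L[ℂ] ℂ :=
  ∑ j ∈ range (2 ^ n), (innerSL ℂ (w (n, j))).comp (ContinuousLinearMap.apply ℂ H (v (n, j)))

omit [CompleteSpace H] in
lemma Lv_apply (n : ℕ) (T : H →L[ℂ] H) :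
    Lv w v n T = ∑ j ∈ range (2 ^ n), inner ℂ (w (n, j)) (T (v (n, j))) := by simp [Lv]

omit [CompleteSpace H] in
lemma row (hv : Orthonormal ℂ v) (n : ℕ) : Orthonormal ℂ fun j => v (n, j) :=
  hv.comp _ (Prod.mk_right_injective n)

omit [CompleteSpace H] in
lemma lv1 (hv : Orthonormal ℂ v) (hw : Orthonormal ℂ w) (n : ℕ) (T : H →L[ℂ] H) :
    ‖Lv w v n T‖ ≤ 2 ^ n * ‖T‖ := by
  rw [Lv_apply]
  refine (norm_sum_le _ _).trans ((sum_le_card_nsmul _ _ ‖T‖ fun j _ => ?_).trans (by simp))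
  have := T.le_opNorm (v (n, j))
  refine (norm_inner_le_norm _ _).trans ?_
  rw [hw.1, hv.1] at *
  linarith

lemma lv2 (hv : Orthonormal ℂ v) (hw : Orthonormal ℂ w) (n : ℕ) {G : H →L[ℂ] H} {r : ℕ}
    (h : Rk G r) : ‖Lv w v n G‖ ≤ r * ‖G‖ := by
  obtain ⟨d, hd, f, g, h3, h4⟩ := h.dec
  conv_lhs => rw [h4, _root_.map_sum]
  refine (norm_sum_le _ _).trans ((sum_le_card_nsmul _ _ ‖G‖ fun i _ => le_trans ?_ (h3 i)).trans ?_)
  · rw [Lv_apply]
    refine (norm_sum_le _ _).trans (le_trans (le_of_eq (sum_congr rfl fun j _ => ?_))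
      (cs (row hv n) (row hw n) _ (g i) (f i)))
    rw [rankOne_apply, inner_smul_right, norm_mul, mul_comm, norm_inner_symm (g i)]
  · simp only [card_univ, Fintype.card_fin, nsmul_eq_mul]
    gcongr

lemma lv3 (hv : Orthonormal ℂ v) (hw : Orthonormal ℂ w) {σ M : ℝ} (h1 : 1 / 2 < σ) (h2 : σ ≤ 1)
    {T : H →L[ℂ] H} (hT : ‖T‖ ≤ M) (hs : ∀ k, sv T (2 ^ k) ≤ M * σ ^ k) (n : ℕ) :
    ‖Lv w v n T‖ ≤ (3 + 6 / (2 * σ - 1)) * (2 * σ) ^ n * M := by
  have s0 : 0 < 2 * σ - 1 := by linarith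
  have s1 : 0 < σ := by linarith
  rw [← div_le_iff₀' (by positivity)]
  refine le_of_forall_gt_imp_ge_of_dense fun M' hM => ?_
  rw [div_le_iff₀' (by positivity)]
  have M0 : 0 ≤ M' := ((norm_nonneg T).trans hT).trans hM.le
  choose F hF hF' using fun k => sv_ex ((hs k).trans_lt (mul_lt_mul_of_pos_right hM (pow_pos s1 k)))
  have key : ∀ k, ‖Lv w v n (F k)‖ ≤ (2 + 6 / (2 * σ - 1)) * (2 * σ) ^ k * M' := by
    intro k
    induction k with
    | zero =>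
      have a1 := lv2 hv hw n (hF 0)
      have a2 := hF' 0
      have a3 := norm_sub_le T (T - F 0)
      have : 0 ≤ 6 / (2 * σ - 1) * M' := by positivity
      simp only [pow_zero, mul_one, sub_sub_cancel, Nat.cast_one, one_mul] at *
      nlinarith
    | succ k ih =>
      have a1 := lv2 hv hw n ((hF (k + 1)).sub (hF k))
      have a2 : ‖F (k + 1) - F k‖ ≤ 2 * (M' * σ ^ k) := by
        rw [show F (k + 1) - F k = T - F k - (T - F (k + 1)) by abel]
        have : M' * σ ^ (k + 1) ≤ M' * σ ^ k := by gcongr _ * ?_; exact pow_le_pow_of_le_one s1.le h2 (by omega)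
        linarith [norm_sub_le (T - F k) (T - F (k + 1)), hF' k, hF' (k + 1)]
      have a3 : ‖Lv w v n (F (k + 1) - F k)‖ ≤ 6 * (2 * σ) ^ k * M' := by
        refine a1.trans ?_
        push_cast
        calc _ ≤ (2 ^ (k + 1) + 2 ^ k) * (2 * (M' * σ ^ k)) := by gcongr
          _ = _ := by rw [mul_pow]; ring
      have a4 := norm_add_le (Lv w v n (F (k + 1) - F k)) (Lv w v n (F k))
      rw [← map_add, sub_add_cancel] at a4
      have a5 : (2 + 6 / (2 * σ - 1)) * (2 * σ) ^ (k + 1) * M' = 6 * (2 * σ) ^ k * M' +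
        (2 + 6 / (2 * σ - 1)) * (2 * σ) ^ k * M' + 2 * (2 * σ - 1) * ((2 * σ) ^ k * M') := by
        field_simp; ring
      have : 0 ≤ 2 * (2 * σ - 1) * ((2 * σ) ^ k * M') := by positivity
      linarith
  have a4 := norm_add_le (Lv w v n (T - F n)) (Lv w v n (F n))
  rw [← map_add, sub_add_cancel] at a4
  have a5 := (lv1 hv hw n (T - F n)).trans (mul_le_mul_of_nonneg_left (hF' n).le (by positivity))
  have := key n
  rw [mul_pow] at *
  nlinarith

lemma lv4 (hv : Orthonormal ℂ v) (hw : Orthonormal ℂ w) (hp : 0 < p) {σ : ℝ} (h1 : 1 / 2 < σ)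
    (h2 : σ ≤ 1) (h3 : ((2 : ℝ) ^ (-(1 / p))) ^ 2 ≤ σ) {a c : H →L[ℂ] H} (ha : InS p a)
    (hc : InS p c) (n : ℕ) :
    ‖Lv w v n (a * c)‖ ≤ (3 + 6 / (2 * σ - 1)) * (2 * σ) ^ n * (2 * (nS p a * nS p c)) := by
  have na := nS_nonneg p a
  have nc := nS_nonneg p c
  have h0 : ‖a * c‖ ≤ nS p a * nS p c :=
    (norm_mul_le _ _).trans (mul_le_mul (ha.norm_le hp) (hc.norm_le hp) (norm_nonneg _) na)
  have h4 := mul_nonneg na nc
  refine lv3 hv hw h1 h2 (by linarith) (fun k => ?_) n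
  rcases k with _ | k
  · have := sv_norm (a * c) (2 ^ 0)
    rw [pow_zero σ]; linarith
  · have e : ((2 ^ k + 1 : ℕ) : ℝ) ^ (-(1 / p)) ≤ ((2 : ℝ) ^ (-(1 / p))) ^ k := by
      rw [Real.rpow_pow_comm zero_le_two]
      exact Real.rpow_le_rpow_of_nonpos (by positivity) (by push_cast; linarith)
        (neg_nonpos.2 (by positivity))
    have g0 : 0 ≤ (2 : ℝ) ^ (-(1 / p)) := by positivity
    have b1 := (ha.sv_le hp (2 ^ k)).trans (mul_le_mul_of_nonneg_left e na)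
    have b2 := (hc.sv_le hp (2 ^ k)).trans (mul_le_mul_of_nonneg_left e nc)
    have b3 := sv_mul a c (2 ^ k) (2 ^ k)
    rw [← two_mul, ← pow_succ'] at b3
    have b4 := pow_le_pow_left₀ (by positivity) h3 k
    calc _ ≤ nS p a * ((2 : ℝ) ^ (-(1 / p))) ^ k * (nS p c * ((2 : ℝ) ^ (-(1 / p))) ^ k) :=
          b3.trans (mul_le_mul b1 b2 (sv_nonneg _ _) (by positivity))
      _ = nS p a * nS p c * (((2 : ℝ) ^ (-(1 / p))) ^ 2) ^ k * 1 := by ring
      _ ≤ nS p a * nS p c * σ ^ k * (2 * σ) := by gcongr; linarith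
      _ = _ := by ring

noncomputable def Sh (w v : ℕ × ℕ → H) (n : ℕ) : H →L[ℂ] H :=
  ∑ j ∈ range (2 ^ n), rankOne ℂ (w (n, j)) (v (n, j))

noncomputable def Wt (w v : ℕ × ℕ → H) (α : ℝ) : H →L[ℂ] H := ∑' n, (α : ℂ) ^ n • Sh w v n

variable {α : ℝ}

omit [CompleteSpace H] in
lemma Sh_le (hv : Orthonormal ℂ v) (hw : Orthonormal ℂ w) (h0 : 0 ≤ α) (n : ℕ) :
    ‖(α : ℂ) ^ n • Sh w v n‖ ≤ α ^ n := by
  rw [norm_smul, norm_pow, Complex.norm_of_nonneg h0]
  exact mul_le_of_le_one_right (by positivity) (iso_le (row hv n) (row hw n) _)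

lemma Wt_sum (hv : Orthonormal ℂ v) (hw : Orthonormal ℂ w) (h0 : 0 ≤ α) (h1 : α < 1) :
    Summable fun n => (α : ℂ) ^ n • Sh w v n :=
  .of_norm_bounded (summable_geometric_of_lt_one h0 h1) (Sh_le hv hw h0)

lemma Wt_v (hv : Orthonormal ℂ v) (hw : Orthonormal ℂ w) (h0 : 0 ≤ α) (h1 : α < 1) {n j : ℕ}
    (hj : j < 2 ^ n) : Wt w v α (v (n, j)) = (α : ℂ) ^ n • w (n, j) := by
  have := (Wt_sum hv hw h0 h1).hasSum.mapL (ContinuousLinearMap.apply ℂ H (v (n, j)))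
  refine this.unique ?_
  convert hasSum_single n fun m hm => ?_ using 1
  · simp [Sh, orthonormal_iff_ite.1 hv, hj]
  · simp [Sh, orthonormal_iff_ite.1 hv, hm]

lemma Wt_w (hv : Orthonormal ℂ v) (hw : Orthonormal ℂ w) (h0 : 0 ≤ α) (h1 : α < 1) {n j : ℕ}
    (hj : j < 2 ^ n) (y : H) :
    inner ℂ (w (n, j)) (Wt w v α y) = (α : ℂ) ^ n * inner ℂ (v (n, j)) y := by
  have := (Wt_sum hv hw h0 h1).hasSum.mapL
    ((innerSL ℂ (w (n, j))).comp (ContinuousLinearMap.apply ℂ H y))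
  refine this.unique ?_
  convert hasSum_single n fun m hm => ?_ using 1
  · simp [Sh, inner_sum, inner_smul_right, orthonormal_iff_ite.1 hw, hj]
  · simp [Sh, inner_sum, inner_smul_right, orthonormal_iff_ite.1 hw, hm.symm]

lemma Wt_S (hv : Orthonormal ℂ v) (hw : Orthonormal ℂ w) (hp : 0 < p) (h0 : 0 ≤ α)
    (h1 : α < (2 : ℝ) ^ (-(1 / p))) : InS p (Wt w v α) := by
  have h2 : α < 1 := h1.trans (Real.rpow_lt_one_of_one_lt_of_neg one_lt_two
    (neg_lt_zero.2 (by positivity)))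
  have h3 : 2 * α ^ p < 1 := by
    have := Real.rpow_lt_rpow h0 h1 hp
    rw [← Real.rpow_mul zero_le_two, neg_mul, one_div_mul_cancel hp.ne', Real.rpow_neg_one] at this
    linarith
  have i0 : 0 ≤ (1 - α)⁻¹ := inv_nonneg.2 (by linarith)
  rw [inS_iff hp]
  refine ((summable_geometric_of_lt_one (by positivity) h3).mul_right
    ((1 - α)⁻¹ ^ p)).of_nonneg_of_le
    (fun k => mul_nonneg (by positivity) (Real.rpow_nonneg (sv_nonneg _ _) _)) fun k => ?_
  have r1 : Rk (∑ m ∈ range k, (α : ℂ) ^ m • Sh w v m) (2 ^ k) := by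
    refine (rk_sum (r := fun m => 2 ^ m) _ fun m => ?_).mono ?_
    · have := (rk_sum (range (2 ^ m)) fun j => rk_one (w (m, j)) (v (m, j))).mul_left
        ((α : ℂ) ^ m • 1)
      simpa [Sh] using this
    · rw [Nat.geomSum_eq le_rfl]; simp
  have r2 := sv_le r1 (Wt w v α)
  rw [Wt, ← (Wt_sum hv hw h0 h2).sum_add_tsum_nat_add k, add_sub_cancel_left,
    (Wt_sum hv hw h0 h2).sum_add_tsum_nat_add k] at r2
  have r3 := tsum_of_norm_bounded ((hasSum_geometric_of_lt_one h0 h2).mul_left (α ^ k))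
    (f := fun m => (α : ℂ) ^ (m + k) • Sh w v (m + k)) fun m => by
      rw [← pow_add, add_comm k]; exact Sh_le hv hw h0 _
  rw [mul_pow, mul_assoc, Real.rpow_pow_comm h0, ← Real.mul_rpow (by positivity) i0]
  gcongr
  · exact sv_nonneg _ _
  · exact r2.trans r3

end Pool.Agent.H.MP_fc9cb6_an
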