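import Pool.Agent.H.MP_fc9cb6_an.C

namespace Pool.Agent.H.MP_fc9cb6_an
open Filter Topology Finset InnerProductSpace

section
variable {E : Type} [NormedAddCommGroup E] [NormedSpace ℂ E]

abbrev YY (E : Type) [NormedAddCommGroup E] [NormedSpace ℂ E] :=
  ((E →L[ℂ] ℂ) × (E →L[ℂ] ℂ)) × (Fin 3 → ℂ)

lemma act_le (M : E →L[ℂ] E) (φ : Fin 3 → E →L[ℂ] ℂ) (s : E →L[ℂ] ℂ) (β : Fin 3 → ℂ) {N : ℝ}
    (h1 : ‖s‖ ≤ N) (h2 : ‖β‖ ≤ N) : ‖s.comp M + ∑ i, β i • φ i‖ ≤ (‖M‖ + ∑ i, ‖φ i‖) * N := by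
  rw [add_mul, sum_mul]
  refine norm_add_le_of_le ((s.opNorm_comp_le M).trans (by rw [mul_comm]; gcongr))
    (norm_sum_le_of_le _ fun i _ => ?_)
  rw [norm_smul, mul_comm]
  gcongr
  exact (norm_le_pi_norm β i).trans h2

noncomputable def aR (M : E →L[ℂ] E) (φ : Fin 3 → E →L[ℂ] ℂ) : YY E →L[ℂ] YY E :=
  LinearMap.mkContinuous
    { toFun := fun y => ((y.1.1.comp M + ∑ i, y.2 i • φ i, 0), 0)
      map_add' := fun x y => by
        ext <;> simp [Fin.sum_univ_three]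
        ring
      map_smul' := fun c x => by
        ext <;> simp [Fin.sum_univ_three]
        ring } (‖M‖ + ∑ i, ‖φ i‖) fun y => by
    simpa using act_le M φ y.1.1 y.2 ((norm_fst_le y.1).trans (norm_fst_le y)) (norm_snd_le y)

noncomputable def aL (M : E →L[ℂ] E) (φ : Fin 3 → E →L[ℂ] ℂ) : YY E →L[ℂ] YY E :=
  LinearMap.mkContinuous
    { toFun := fun y => ((0, y.1.2.comp M + ∑ i, y.2 i • φ i), 0)
      map_add' := fun x y => by
        ext <;> simp [Fin.sum_univ_three]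
        ring
      map_smul' := fun c x => by
        ext <;> simp [Fin.sum_univ_three]
        ring } (‖M‖ + ∑ i, ‖φ i‖) fun y => by
    simpa using act_le M φ y.1.2 y.2 ((norm_snd_le y.1).trans (norm_fst_le y)) (norm_snd_le y)

lemma aR_apply (M : E →L[ℂ] E) (φ : Fin 3 → E →L[ℂ] ℂ) (y : YY E) :
    aR M φ y = ((y.1.1.comp M + ∑ i, y.2 i • φ i, 0), 0) := rfl
lemma aL_apply (M : E →L[ℂ] E) (φ : Fin 3 → E →L[ℂ] ℂ) (y : YY E) :
    aL M φ y = ((0, y.1.2.comp M + ∑ i, y.2 i • φ i), 0) := rfl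
lemma aR_le (M : E →L[ℂ] E) (φ : Fin 3 → E →L[ℂ] ℂ) : ‖aR M φ‖ ≤ ‖M‖ + ∑ i, ‖φ i‖ :=
  LinearMap.mkContinuous_norm_le _ (by positivity) _
lemma aL_le (M : E →L[ℂ] E) (φ : Fin 3 → E →L[ℂ] ℂ) : ‖aL M φ‖ ≤ ‖M‖ + ∑ i, ‖φ i‖ :=
  LinearMap.mkContinuous_norm_le _ (by positivity) _

noncomputable def dd (x : E) : YY E →L[ℂ] ℂ :=
  LinearMap.mkContinuous
    { toFun := fun y => y.1.1 x - y.1.2 x
      map_add' := fun x y => by simp; ring
      map_smul' := fun c x => by simp; ring } (2 * ‖x‖) fun y => by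
    have h1 := y.1.1.le_of_opNorm_le ((norm_fst_le y.1).trans (norm_fst_le y)) x
    have h2 := y.1.2.le_of_opNorm_le ((norm_snd_le y.1).trans (norm_fst_le y)) x
    exact (norm_sub_le _ _).trans (by linarith)

lemma dd_apply (x : E) (y : YY E) : dd x y = y.1.1 x - y.1.2 x := rfl
lemma dd_le (x : E) : ‖dd x‖ ≤ 2 * ‖x‖ := LinearMap.mkContinuous_norm_le _ (by positivity) _
end

variable (H : Type) [NormedAddCommGroup H] [InnerProductSpace ℂ H] (p : ℝ) [hp : Fact (0 < p)]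

def Sp : Submodule ℂ (H →L[ℂ] H) where
  carrier := {a | InS p a}
  zero_mem' := (rk_zero 0).inS hp.out
  add_mem' := InS.add hp.out
  smul_mem' c a ha := by simpa using (InS.left hp.out ha (c • 1)).1

noncomputable def env : Seminorm ℂ (Sp H p) := sSup {q | ∀ a, q a ≤ nS p a.1}

lemma env_bdd : BddAbove {q : Seminorm ℂ (Sp H p) | ∀ a, q a ≤ nS p a.1} :=
  Seminorm.bddAbove_iff.2 ⟨fun a => nS p a.1, by rintro _ ⟨q, hq, rfl⟩; exact hq⟩

variable {H p}

lemma env_le (a : Sp H p) : env H p a ≤ nS p a.1 := by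
  rw [env, Seminorm.sSup_apply (env_bdd H p)]
  exact Real.iSup_le (fun q => q.2 a) (nS_nonneg _ _)

lemma le_env {E : Type} [SeminormedAddCommGroup E] [NormedSpace ℂ E] (f : Sp H p →ₗ[ℂ] E) {K : ℝ}
    (hK : 0 ≤ K) (h : ∀ a, ‖f a‖ ≤ K * nS p a.1) (a : Sp H p) : ‖f a‖ ≤ K * env H p a := by
  rcases hK.eq_or_lt with rfl | hK
  · simpa using h a
  have : ((normSeminorm ℂ E).comp ((K⁻¹ : ℂ) • f)) ≤ env H p := le_csSup (env_bdd H p) fun a => by
    simpa [norm_smul, abs_of_pos hK, inv_mul_le_iff₀ hK] using h a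
  simpa [norm_smul, abs_of_pos hK, inv_mul_le_iff₀ hK] using this a

variable (H p) in
def AA : Type := Sp H p
noncomputable instance : AddCommGroup (AA H p) := inferInstanceAs (AddCommGroup (Sp H p))
noncomputable instance : Module ℂ (AA H p) := inferInstanceAs (Module ℂ (Sp H p))
noncomputable instance : NormedAddCommGroup (AA H p) := AddGroupNorm.toNormedAddCommGroup
  { (env H p).toAddGroupSeminorm with
    eq_zero_of_map_eq_zero' := fun a ha => by
      have := le_env (Sp H p).subtype zero_le_one (fun a => by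
        simpa using InS.norm_le hp.out a.2) a
      rw [show env H p a = 0 from ha, mul_zero] at this
      exact Subtype.ext (norm_le_zero_iff.1 this) }
noncomputable instance : NormedSpace ℂ (AA H p) := ⟨fun c a => (map_smul_eq_mul (env H p) c a).le⟩

noncomputable def mk {E : Type} [NormedAddCommGroup E] [NormedSpace ℂ E] (f : Sp H p →ₗ[ℂ] E)
    {K : ℝ} (hK : 0 ≤ K) (h : ∀ a, ‖f a‖ ≤ K * nS p a.1) : AA H p →L[ℂ] E :=
  LinearMap.mkContinuous (E := AA H p) f K (le_env f hK h)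

lemma mk_le {E : Type} [NormedAddCommGroup E] [NormedSpace ℂ E] (f : Sp H p →ₗ[ℂ] E)
    {K : ℝ} (hK : 0 ≤ K) (h : ∀ a, ‖f a‖ ≤ K * nS p a.1) : ‖mk f hK h‖ ≤ K :=
  LinearMap.mkContinuous_norm_le _ hK _

lemma exL (a : H →L[ℂ] H) : ∃ M : AA H p →L[ℂ] AA H p, ‖M‖ ≤ ‖a‖ ∧ ∀ c, (M c).1 = a * c.1 :=
  ⟨_, mk_le (E := AA H p) (((LinearMap.mulLeft ℂ a).comp (Sp H p).subtype).codRestrict _
    fun c => (InS.left hp.out c.2 a).1) (norm_nonneg a) fun c =>
      (env_le _).trans (InS.left hp.out c.2 a).2, fun _ => rfl⟩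

lemma exR (a : H →L[ℂ] H) : ∃ M : AA H p →L[ℂ] AA H p, ‖M‖ ≤ ‖a‖ ∧ ∀ c, (M c).1 = c.1 * a :=
  ⟨_, mk_le (E := AA H p) (((LinearMap.mulRight ℂ a).comp (Sp H p).subtype).codRestrict _
    fun c => (InS.right hp.out c.2 a).1) (norm_nonneg a) fun c =>
      (env_le _).trans (InS.right hp.out c.2 a).2, fun _ => rfl⟩

lemma exT {τ : (H →L[ℂ] H) → ℂ} {K : ℝ} (hK : 0 ≤ K) (μ : (H →L[ℂ] H) → (H →L[ℂ] H) →ₗ[ℂ] H →L[ℂ] H)
    (h1 : ∀ a b, InS p a → InS p b → ‖τ (μ a b)‖ ≤ K * (nS p a * nS p b))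
    (h2 : ∀ a b c, InS p a → InS p b → InS p c → τ (μ a b + μ a c) = τ (μ a b) + τ (μ a c))
    (h3 : ∀ (z : ℂ) T, τ (z • T) = z * τ T) (a : H →L[ℂ] H) : ∃ φ : AA H p →L[ℂ] ℂ, InS p a →
      ‖φ‖ ≤ K * nS p a ∧ ∀ c, φ c = τ (μ a c.1) := by
  by_cases ha : InS p a
  · let f : Sp H p →ₗ[ℂ] ℂ :=
      { toFun := fun c => τ (μ a c.1)
        map_add' := fun x y => by
          rw [Submodule.coe_add, map_add]; exact h2 a _ _ ha x.2 y.2
        map_smul' := fun z x => by rw [Submodule.coe_smul, map_smul, h3]; rfl }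
    have hf : ∀ c, ‖f c‖ ≤ K * nS p a * nS p c.1 := fun c => by
      rw [mul_assoc]; exact h1 a _ ha c.2
    exact ⟨mk f (mul_nonneg hK (nS_nonneg p a)) hf, fun _ => ⟨mk_le _ _ _, fun _ => rfl⟩⟩
  · exact ⟨0, fun h => absurd h ha⟩

theorem core {τ : Fin 3 → (H →L[ℂ] H) → ℂ} {K : ℝ} (hK : 0 ≤ K)
    (h1 : ∀ i a b, InS p a → InS p b → ‖τ i (a * b)‖ ≤ K * (nS p a * nS p b))
    (h2 : ∀ i a b c d, InS p a → InS p b → InS p c → InS p d →
      τ i (a * b + c * d) = τ i (a * b) + τ i (c * d))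
    (h3 : ∀ i (z : ℂ) T, τ i (z • T) = z * τ i T) {a : Fin 3 → H →L[ℂ] H} (ha : ∀ i, InS p (a i))
    {x : H} (hx : ‖x‖ = 1) (h4 : ∀ c, InS p c → ∑ i, τ i (a i * c) = 0)
    (h5 : ∀ c, InS p c → ∑ i, τ i (c * a i) = inner ℂ x (c x)) : ¬ASA H p := by
  classical
  intro hA
  choose Lm hL hL' using exL (H := H) (p := p)
  choose Rm hR hR' using exR (H := H) (p := p)
  choose tR htR using fun i => exT hK (LinearMap.mulLeft ℂ) (h1 i)
    (fun a b c ha hb hc => h2 i a b a c ha hb ha hc) (h3 i)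
  choose tL htL using fun i => exT hK (LinearMap.mulRight ℂ)
    (fun a b ha hb => by rw [mul_comm (nS p a)]; exact h1 i b a hb ha)
    (fun a b c ha hb hc => h2 i b a c a hb ha hc ha) (h3 i)
  simp only [LinearMap.mulLeft_apply, LinearMap.mulRight_apply] at htR htL
  let j : (H →L[ℂ] H) → AA H p := fun a => if h : InS p a then ⟨a, h⟩ else 0
  have hj : ∀ a, InS p a → (j a).1 = a := fun a h => by simp [j, h]
  have sm : ∀ (z : ℂ) {a b : H →L[ℂ] H}, InS p a → InS p b → InS p (z • a) ∧ InS p (z • a + b) :=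
    fun z a b ha hb => ⟨(Sp H p).smul_mem z ha, (Sp H p).add_mem ((Sp H p).smul_mem z ha) hb⟩
  have ml : ∀ {a b : H →L[ℂ] H}, InS p b → InS p (a.comp b) := fun h => (h.left hp.out _).1
  have bd : ∀ (M : (H →L[ℂ] H) → AA H p →L[ℂ] AA H p) (t : Fin 3 → (H →L[ℂ] H) → AA H p →L[ℂ] ℂ),
      (∀ a, ‖M a‖ ≤ ‖a‖) → (∀ i a, InS p a → ‖t i a‖ ≤ K * nS p a) → ∀ a, InS p a →
      ‖M a‖ + ∑ i, ‖t i a‖ ≤ (1 + 3 * K) * nS p a := fun M t m1 m2 a ha => by
    have := (m1 a).trans (ha.norm_le hp.out)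
    rw [Fin.sum_univ_three]
    linarith [m2 0 a ha, m2 1 a ha, m2 2 a ha]
  have L1 : ∀ (z : ℂ) a b, Lm (z • a + b) = z • Lm a + Lm b := fun z a b => by
    ext c; refine Subtype.ext ?_
    show _ = z • (Lm a c).1 + (Lm b c).1
    simp [hL', add_mul]
  have R1 : ∀ (z : ℂ) a b, Rm (z • a + b) = z • Rm a + Rm b := fun z a b => by
    ext c; refine Subtype.ext ?_
    show _ = z • (Rm a c).1 + (Rm b c).1
    simp [hR', mul_add]
  have L2 : ∀ a b c, Lm (a.comp b) c = Lm a (Lm b c) := fun a b c => Subtype.ext (by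
    simp only [hL']; rfl)
  have R2 : ∀ a b c, Rm (a.comp b) c = Rm b (Rm a c) := fun a b c => Subtype.ext (by
    simp only [hR']; rfl)
  obtain ⟨ι, _, _, _, ξ, η, hT⟩ := hA (YY (AA H p)) (fun a => aL (Rm a) fun i => tL i a)
    (fun a => aR (Lm a) fun i => tR i a) (fun a => dd (j a))
    ⟨⟨fun a b ha hb z => by
      have : ∀ i, tL i (z • a + b) = z • tL i a + tL i b := fun i => by
        ext c
        simp only [_root_.add_apply, _root_.smul_apply, (htL i _ ha).2, (htL i _ hb).2,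
          (htL i _ (sm z ha hb).2).2, mul_add, smul_eq_mul]
        rw [h2 i _ _ _ _ c.2 (sm z ha hb).1 c.2 hb, mul_smul_comm, h3]
      refine ContinuousLinearMap.ext fun y => ?_
      ext <;> simp [aL_apply, R1, this, Fin.sum_univ_three]
      ring,
      _, fun a ha => (aL_le _ _).trans (bd Rm tL hR (fun i a h => (htL i a h).1) a ha)⟩,
    ⟨fun a b ha hb z => by
      have : ∀ i, tR i (z • a + b) = z • tR i a + tR i b := fun i => by
        ext c
        simp only [_root_.add_apply, _root_.smul_apply, (htR i _ ha).2, (htR i _ hb).2,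
          (htR i _ (sm z ha hb).2).2, add_mul, smul_eq_mul]
        rw [h2 i _ _ _ _ (sm z ha hb).1 c.2 hb c.2, smul_mul_assoc, h3]
      refine ContinuousLinearMap.ext fun y => ?_
      ext <;> simp [aR_apply, L1, this, Fin.sum_univ_three]
      ring,
      _, fun a ha => (aR_le _ _).trans (bd Lm tR hL (fun i a h => (htR i a h).1) a ha)⟩,
    fun a b ha hb => by
      refine ⟨ContinuousLinearMap.ext fun y => ?_, ContinuousLinearMap.ext fun y => ?_,
        ContinuousLinearMap.ext fun y => by ext <;> simp [aL_apply, aR_apply]⟩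
      · have : ∀ i c, tL i (a.comp b) c = tL i b (Rm a c) := fun i c => by
          rw [(htL _ _ (ml hb)).2, (htL _ _ hb).2, hR', mul_assoc]; rfl
        ext <;> simp [aL_apply, R2, this]
      · have : ∀ i c, tR i (a.comp b) c = tR i a (Lm b c) := fun i c => by
          rw [(htR _ _ (ml hb)).2, (htR _ _ ha).2, hL', ← mul_assoc]; rfl
        ext <;> simp [aR_apply, L2, this]⟩
    ⟨⟨fun a b ha hb z => by
      have : j (z • a + b) = z • j a + j b := Subtype.ext (by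
        show _ = z • (j a).1 + (j b).1
        rw [hj _ ha, hj _ hb, hj _ (sm z ha hb).2])
      refine ContinuousLinearMap.ext fun y => ?_
      simp [dd_apply, this]; ring,
      2, fun a ha => (dd_le _).trans (by
        gcongr
        exact (env_le (j a)).trans_eq (by rw [hj a ha]))⟩,
    fun a b ha hb => by
      have e1 : j (a.comp b) = Lm a (j b) := Subtype.ext (by rw [hL', hj _ hb, hj _ (ml hb)]; rfl)
      have e2 : Rm b (j a) = Lm a (j b) := Subtype.ext (by rw [hL', hR', hj _ hb, hj _ ha])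
      refine ContinuousLinearMap.ext fun y => ?_
      simp [dd_apply, aL_apply, aR_apply, e1, e2, (htR _ _ ha).2, (htL _ _ hb).2, hj _ ha,
        hj _ hb]
      ring⟩
  have hP : InS p (rankOne ℂ x x) := (rk_one x x).inS hp.out
  let ψ : AA H p →L[ℂ] ℂ := ∑ i, tL i (a i)
  have hψ : ∀ c, ψ c = inner ℂ x (c.1 x) := fun c => by
    simp only [ψ, _root_.sum_apply, (htL _ _ (ha _)).2, h5 _ c.2]
  let y0 : YY (AA H p) := ((0, ψ), 0)
  let y : Fin 3 → YY (AA H p) := fun i => (0, Pi.single i 1)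
  have ev : ∀ {a}, InS p a → ∀ y : YY (AA H p), Tendsto (fun k => ξ k (aR (Lm a) (fun i => tR i a) y)
      - η k (aL (Rm a) (fun i => tL i a) y)) atTop (𝓝 (dd (j a) y)) := fun h y =>
    ((ContinuousLinearMap.apply ℂ ℂ y).continuous.tendsto _).comp (hT _ h)
  have t1 := tendsto_finsetSum univ fun i _ => ev (ha i) (y i)
  have t2 := ev hP y0
  have s1 : ∑ i, aR (Lm (a i)) (fun k => tR k (a i)) (y i) = 0 := by
    have : ∀ c, tR 0 (a 0) c + tR 1 (a 1) c + tR 2 (a 2) c = 0 := fun c => by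
      simpa only [(htR _ _ (ha _)).2, Fin.sum_univ_three] using h4 _ c.2
    ext c <;> simp [aR_apply, y, Fin.sum_univ_three, this]
  have s2 : ∑ i, aL (Rm (a i)) (fun k => tL k (a i)) (y i) = y0 := by
    ext c <;> simp [aL_apply, y, y0, ψ, Fin.sum_univ_three]
  have s3 : aL (Rm (rankOne ℂ x x)) (fun i => tL i (rankOne ℂ x x)) y0 = y0 := by
    ext c <;> simp [aL_apply, y0, hψ, hR', hx]
  have s4 : aR (Lm (rankOne ℂ x x)) (fun i => tR i (rankOne ℂ x x)) y0 = 0 := by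
    ext c <;> simp [aR_apply, y0]
  simp only [sum_sub_distrib, ← _root_.map_sum, s1, s2] at t1
  rw [s3, s4] at t2
  have := tendsto_nhds_unique t1 t2
  simp [dd_apply, y, y0, hψ, hj _ hP, hx] at this

end Pool.Agent.H.MP_fc9cb6_an
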