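import Pool.Agent.H.MP_fc9cb6_an.D

namespace Pool.Agent.H.MP_fc9cb6_an
open Filter Topology Finset InnerProductSpace

variable {H : Type} [NormedAddCommGroup H] [InnerProductSpace ℂ H] [CompleteSpace H]

theorem no {e : ℕ → H} (he : Orthonormal ℂ e) {p : ℝ} (hp1 : 1 < p) : ¬ASA H p := by
  have hp : 0 < p := by linarith
  have : Fact (0 < p) := ⟨hp⟩
  set γ : ℝ := 2 ^ (-(1 / p)) with hγ
  have g1 : γ < 1 := Real.rpow_lt_one_of_one_lt_of_neg one_lt_two (neg_lt_zero.2 (by positivity))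
  have g2 : 1 / 2 < γ := by
    rw [one_div, ← Real.rpow_neg_one]
    exact Real.rpow_lt_rpow_of_exponent_lt one_lt_two (neg_lt_neg ((div_lt_one hp).2 hp1))
  obtain ⟨σ, s1, s2⟩ := exists_between (max_lt g2 (show γ ^ 2 < γ by nlinarith))
  obtain ⟨α, a1, a2⟩ := exists_between s2
  rw [max_lt_iff] at s1
  have a0 : 0 < α := by linarith [s1.1]
  have a3 : α < 1 := by linarith
  set v : ℕ × ℕ → H := fun x => e (Nat.pairEquiv x)
  have hv : Orthonormal ℂ v := he.comp _ Nat.pairEquiv.injective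
  let w : Fin 3 → ℕ × ℕ → H := ![fun x => v (x.1 + 1, x.2), fun x => v (x.1 + 1, 2 ^ x.1 + x.2), v]
  have hw : ∀ i, Orthonormal ℂ (w i) := fun i => by
    fin_cases i
    · exact hv.comp (fun x : ℕ × ℕ => (x.1 + 1, x.2)) fun x y h => by
        simpa [Prod.ext_iff] using h
    · exact hv.comp (fun x : ℕ × ℕ => (x.1 + 1, 2 ^ x.1 + x.2)) fun x y h => by
        simp only [Prod.ext_iff, add_left_inj] at h ⊢
        exact ⟨h.1, by simpa [h.1] using h.2⟩
    · exact hv
  let κ : Fin 3 → ℂ := ![-1 / 2, -1 / 2, 1]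
  have hκ : ∀ i, ‖κ i‖ ≤ 1 := fun i => by fin_cases i <;> norm_num [κ]
  let t : Fin 3 → (H →L[ℂ] H) → ℕ → ℂ := fun i T n => ((2 * α : ℂ)⁻¹) ^ n * Lv (w i) v n T
  set C := (3 + 6 / (2 * σ - 1)) * 2
  have s0 : 0 < 2 * σ - 1 := by linarith [s1.1]
  have q0 : 0 ≤ σ / α := by have := s1.1; positivity
  have q1 : σ / α < 1 := (div_lt_one a0).2 a1
  have bd : ∀ i a c, InS p a → InS p c → ∀ n,
      ‖t i (a * c) n‖ ≤ C * (nS p a * nS p c) * (σ / α) ^ n := fun i a c ha hc n => by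
    have h := lv4 hv (hw i) hp s1.1 (by linarith) s1.2.le ha hc n
    have e1 : ‖(2 * α : ℂ)⁻¹‖ = (2 * α)⁻¹ := by simp [abs_of_pos a0]
    simp only [t, norm_mul, norm_pow, e1]
    refine (mul_le_mul_of_nonneg_left h (by positivity)).trans (le_of_eq ?_)
    rw [show σ / α = (2 * α)⁻¹ * (2 * σ) by field_simp, mul_pow _ (2 * σ)]
    ring
  have sm : ∀ i a c, InS p a → InS p c → Summable (t i (a * c)) := fun i a c ha hc =>
    .of_norm_bounded ((summable_geometric_of_lt_one q0 q1).mul_left _) (bd i a c ha hc)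
  have hS : ∀ i, InS p (Wt (w i) v α) := fun i => Wt_S hv (hw i) hp a0.le a2
  have aa : ∀ n : ℕ, ((2 * α : ℂ)⁻¹) ^ n * (α : ℂ) ^ n = (2⁻¹ : ℂ) ^ n := fun n => by
    have : (α : ℂ) ≠ 0 := by exact_mod_cast a0.ne'
    rw [← mul_pow]; congr 1; field_simp
  refine core (τ := fun i T => κ i * ∑' n, t i T n) (K := C * (1 - σ / α)⁻¹)
    (mul_nonneg (by positivity) (inv_nonneg.2 (by linarith))) (fun i a b ha hb => ?_)
    (fun i a b c d ha hb hc hd => ?_) (fun i z T => ?_) hS (x := v (0, 0)) (hv.1 _)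
    (fun c hc => ?_) fun c hc => ?_
  · have := tsum_of_norm_bounded ((hasSum_geometric_of_lt_one q0 q1).mul_left _) (bd i a b ha hb)
    rw [norm_mul]
    exact (mul_le_of_le_one_left (norm_nonneg _) (hκ i)).trans (this.trans_eq (by ring))
  · rw [← mul_add, ← (sm i a b ha hb).tsum_add (sm i c d hc hd)]
    simp only [t, map_add, mul_add]
  · simp only [t, map_smul, smul_eq_mul, mul_left_comm _ z, tsum_mul_left]
  · have : ∀ i n, t i (Wt (w i) v α * c) n = (2⁻¹ : ℂ) ^ n * Lv v v n c := fun i n => by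
      simp only [t, Lv_apply, ← aa, mul_assoc, mul_sum]
      exact sum_congr rfl fun j hj => by
        rw [ContinuousLinearMap.mul_apply, Wt_w hv (hw i) a0.le a3 (mem_range.1 hj)]
    simp only [this, Fin.sum_univ_three, κ, Matrix.cons_val]
    ring
  · have e1 : ∀ i, t i (c * Wt (w i) v α) = fun n => (2⁻¹ : ℂ) ^ n * Lv (w i) (w i) n c :=
      fun i => funext fun n => by
        simp only [t, Lv_apply, ← aa, mul_assoc, mul_sum]
        exact sum_congr rfl fun j hj => by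
          rw [ContinuousLinearMap.mul_apply, Wt_v hv (hw i) a0.le a3 (mem_range.1 hj), map_smul,
            inner_smul_right]
    have u := fun i => sm i c _ hc (hS i)
    simp only [e1] at u
    have e2 : ∀ n, (2⁻¹ : ℂ) ^ (n + 1) * Lv v v (n + 1) c = 2⁻¹ *
        ((2⁻¹ : ℂ) ^ n * Lv (w 0) (w 0) n c + (2⁻¹ : ℂ) ^ n * Lv (w 1) (w 1) n c) := fun n => by
      simp only [Lv_apply, pow_succ, mul_two, sum_range_add, w, Matrix.cons_val]
      ring
    have e3 := (u 2).tsum_eq_zero_add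
    simp only [w, Matrix.cons_val] at e3
    simp only [e2, tsum_mul_left, (u 0).tsum_add (u 1)] at e3
    simp only [e1, Fin.sum_univ_three, κ, Matrix.cons_val]
    rw [show w 2 = v from rfl, e3]
    simp [Lv_apply]; ring

theorem main (e : HilbertBasis ℕ ℂ H) {p : ℝ} (hp : 1 ≤ p) : ASA H p ↔ p = 1 :=
  ⟨fun h => hp.eq_or_lt.elim Eq.symm fun h' => absurd h (no e.orthonormal h'),
    fun h => h ▸ yes e⟩

end Pool.Agent.H.MP_fc9cb6_an
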